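import Pool.Agent.X170.Arc.Main
import Pool.Agent.Y253.TR.Dict

/-!
# The spectral distribution of a unitary in the tracial states
-/

set_option autoImplicit false

open MeasureTheory Set
open scoped ComplexOrder

namespace Pool.Agent.X170.Arc

open Pool.Agent.W763.Tr Pool.Agent.Y253.TR

/-- `μ` is the spectral distribution of `u` in the state `φ` -/
def SpecD {G : Subgroup (Equiv.Perm ℚ)} (φ : G → ℂ) (u : G) (μ : Measure UnitAddCircle) : Prop :=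
  IsProbabilityMeasure μ ∧ ∀ n : ℤ, ∫ x, (fourier n x : ℂ) ∂μ = φ (u ^ n)

/-- tracial states -/
def TrS (G : Subgroup (Equiv.Perm ℚ)) : Set (G → ℂ) :=
  {ψ : G → ℂ | ψ 1 = 1 ∧ (∀ g h : G, ψ (h * g * h⁻¹) = ψ g) ∧
    ∀ (s : Finset G) (c : G → ℂ), 0 ≤ ∑ i ∈ s, ∑ j ∈ s, star (c j) * c i * ψ (j⁻¹ * i)}

/-- the masses of the arc -/
def TrM (G : Subgroup (Equiv.Perm ℚ)) (u : G) (t : ℝ) : Set ℝ :=
  {v : ℝ | ∃ φ ∈ TrS G, ∃ μ : Measure UnitAddCircle, SpecD φ u μ ∧ v = μ.real {x | t ≤ ‖x‖}}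

/-- the masses of the arc in the conditionally finite-dimensional states -/
def TrF (G : Subgroup (Equiv.Perm ℚ)) (u : G) (t : ℝ) : Set ℝ :=
  {v : ℝ | ∃ φ ∈ TrS G, FiniteDimensional ℂ (Submodule.span ℂ {F : G → ℂ | ∃ n : G,
        (∃ r : ℚ, ∀ x : ℚ, (n : Equiv.Perm ℚ) x = x + r) ∧ F = fun x => φ (n * x)}) ∧
    ∃ μ : Measure UnitAddCircle, SpecD φ u μ ∧ v = μ.real {x | t ≤ ‖x‖}}

lemma upow {G : Subgroup (Equiv.Perm ℚ)} {u : G} (hu : ∀ x : ℚ, (u : Equiv.Perm ℚ) x = x + 1)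
    (n : ℤ) (x : ℚ) : ((u ^ n : G) : Equiv.Perm ℚ) x = x + n := by
  have hnat : ∀ (k : ℕ) (y : ℚ), ((u ^ k : G) : Equiv.Perm ℚ) y = y + k := by
    intro k
    induction k with
    | zero => intro y; simp
    | succ k ih =>
      intro y
      rw [pow_succ, Subgroup.coe_mul, Equiv.Perm.mul_apply, hu, ih]
      push_cast; ring
  obtain ⟨k, rfl | rfl⟩ := n.eq_nat_or_neg
  · rw [zpow_natCast, hnat]; push_cast; ring
  · rw [zpow_neg, zpow_natCast, Subgroup.coe_inv, Equiv.Perm.inv_eq_iff_eq, hnat]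
    push_cast; ring

theorem trans {s2 s3 t0 : Equiv.Perm ℚ} (hs2 : ∀ x : ℚ, s2 x = 2 * x)
    (hs3 : ∀ x : ℚ, s3 x = 3 * x) (ht : ∀ x : ℚ, t0 x = x + 1) {G : Subgroup (Equiv.Perm ℚ)}
    (hG : G = Subgroup.closure {s2, s3, t0}) {u : G}
    (hu : ∀ x : ℚ, (u : Equiv.Perm ℚ) x = x + 1) {t v : ℝ} (h : Att t v) :
    IsGreatest (TrM G u t) v ∧ v ∈ TrF G u t := by
  obtain ⟨hgr, μ, hμ, m2, m3, hS, hv⟩ := h
  have hF : v ∈ TrF G u t := by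
    obtain ⟨φ, h1, hcl, hpd, hfd, hval, -⟩ := findim_of_measure hs2 hs3 ht hG μ m2 m3 hS
    refine ⟨φ, ⟨h1, hcl, hpd⟩, hfd, μ, ⟨hμ, fun n => ?_⟩, hv⟩
    rw [hval (u ^ n) n 0 fun x => by rw [upow hu]; simp]
  refine ⟨⟨?_, ?_⟩, hF⟩
  · obtain ⟨φ, hφ, -, μ', hμ'⟩ := hF
    exact ⟨φ, hφ, μ', hμ'⟩
  · rintro w ⟨φ, ⟨h1, hcl, hpd⟩, ν, ⟨hν, hfc⟩, rfl⟩
    have h2m : s2 ∈ G := by rw [hG]; exact Subgroup.subset_closure (by simp)
    have h3m : s3 ∈ G := by rw [hG]; exact Subgroup.subset_closure (by simp)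
    have key : ∀ (S : G) (lam : ℤ), (∀ x, (S : Equiv.Perm ℚ) x = lam * x) →
        ∀ n : ℤ, φ (u ^ (n * lam)) = φ (u ^ n) := by
      intro S lam hS n
      rw [← hcl (u ^ n) S, tau_conj (τ := fun k => u ^ k) (fun k x => upow hu k x) S lam hS n,
        mul_comm]
    have m2' : MeasurePreserving (fun x : UnitAddCircle => 2 • x) ν ν :=
      mp_nsmul hfc fun n => by exact_mod_cast key ⟨s2, h2m⟩ 2 (by intro x; simp [hs2]) n
    have m3' : MeasurePreserving (fun x : UnitAddCircle => 3 • x) ν ν :=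
      mp_nsmul hfc fun n => by exact_mod_cast key ⟨s3, h3m⟩ 3 (by intro x; simp [hs3]) n
    exact hgr.2 ⟨ν, hν, m2', m3', rfl⟩

end Pool.Agent.X170.Arc
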