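import Mathlib

/-!
# Upper bounds for the mass of symmetric arcs, from step functions
-/

set_option autoImplicit false

open MeasureTheory Set

namespace Pool.Agent.X170.Arc

/-- the representative in `[0, 1)` -/
noncomputable def rep (x : UnitAddCircle) : ℝ := (AddCircle.equivIco (1 : ℝ) 0 x : ℝ)

lemma rep_nonneg (x : UnitAddCircle) : 0 ≤ rep x := (AddCircle.equivIco (1 : ℝ) 0 x).2.1

lemma rep_lt (x : UnitAddCircle) : rep x < 1 := by
  have h : rep x < 0 + 1 := (AddCircle.equivIco (1 : ℝ) 0 x).2.2
  linarith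

lemma coe_rep (x : UnitAddCircle) : ((rep x : ℝ) : UnitAddCircle) = x :=
  (AddCircle.equivIco (1 : ℝ) 0).symm_apply_apply x

lemma rep_coe (r : ℝ) : rep (r : UnitAddCircle) = Int.fract r := by
  unfold rep
  rw [AddCircle.coe_equivIco_mk_apply]
  simp

lemma rep_nsmul (n : ℕ) (x : UnitAddCircle) : rep (n • x) = Int.fract (n * rep x) := by
  conv_lhs => rw [← coe_rep x]
  rw [← AddCircle.coe_nsmul, rep_coe, nsmul_eq_mul]

lemma meas_rep : Measurable rep :=
  measurable_subtype_coe.comp (AddCircle.measurableEquivIco 1 0).measurable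

/-- index of the cell of length `1 / K` -/
noncomputable def ix (K : ℕ) (x : UnitAddCircle) : ℕ := ⌊(K : ℝ) * rep x⌋₊

lemma ix_lt {K : ℕ} (hK : 0 < K) (x : UnitAddCircle) : ix K x < K := by
  unfold ix
  have h0 : (0 : ℝ) < K := by exact_mod_cast hK
  rw [Nat.floor_lt (by have := rep_nonneg x; positivity)]
  have := rep_lt x
  nlinarith

lemma meas_ix (K : ℕ) : Measurable (ix K) :=
  Nat.measurable_floor.comp (meas_rep.const_mul _)

/-- the cell of a multiple, from a finer cell -/
lemma ix_nsmul {K n m : ℕ} (hK : 0 < K) (hn : 0 < n) (hm : 0 < m) (x : UnitAddCircle) :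
    ix K (n • x) = (ix (n * m * K) x / m) % K := by
  have hKR : (0 : ℝ) < K := by exact_mod_cast hK
  have hmR : (0 : ℝ) < m := by exact_mod_cast hm
  have h0 := rep_nonneg x
  have h1 := rep_lt x
  -- the quotient is the floor of `n K rep x`
  have e1 : ix (n * m * K) x / m = ⌊(n : ℝ) * K * rep x⌋₊ := by
    unfold ix
    rw [← Nat.floor_div_natCast]
    congr 1
    push_cast
    field_simp
  rw [e1]
  unfold ix
  rw [rep_nsmul]
  set y : ℝ := n * rep x with hy
  have hy0 : 0 ≤ y := by positivity
  have e2 : (n : ℝ) * K * rep x = K * y := by rw [hy]; ring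
  rw [e2]
  have e3 : Int.fract y = y - (⌊y⌋₊ : ℝ) := by
    rw [Int.fract, ← natCast_floor_eq_intCast_floor hy0]
  have e4 : (K : ℝ) * y = K * Int.fract y + ((K * ⌊y⌋₊ : ℕ) : ℝ) := by
    rw [e3]; push_cast; ring
  have hf0 : 0 ≤ (K : ℝ) * Int.fract y := by
    have := Int.fract_nonneg y
    positivity
  rw [e4, Nat.floor_add_natCast hf0, Nat.add_mul_mod_self_left]
  symm
  apply Nat.mod_eq_of_lt
  rw [Nat.floor_lt hf0]
  have := Int.fract_lt_one y
  nlinarith

lemma ix_div {K m : ℕ} (x : UnitAddCircle) (hm : 0 < m) :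
    ix K x = ix (m * K) x / m := by
  unfold ix
  rw [← Nat.floor_div_natCast]
  congr 1
  have : (0 : ℝ) < m := by exact_mod_cast hm
  push_cast
  field_simp

/-- the distance to `0` -/
lemma norm_eq (x : UnitAddCircle) : ‖x‖ = min (rep x) (1 - rep x) := by
  conv_lhs => rw [← coe_rep x]
  rw [UnitAddCircle.norm_eq, abs_sub_round_eq_min, Int.fract_eq_self.2 ⟨rep_nonneg x, rep_lt x⟩]

/-- step functions -/
noncomputable def st (K : ℕ) (g : List ℤ) (x : UnitAddCircle) : ℝ := (g.getD (ix K x) 0 : ℤ)

lemma meas_st (K : ℕ) (g : List ℤ) : Measurable (st K g) :=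
  (Measurable.of_discrete (f := fun n : ℕ => ((g.getD n 0 : ℤ) : ℝ))).comp (meas_ix K)

lemma int_st {K : ℕ} (hK : 0 < K) (g : List ℤ) (μ : Measure UnitAddCircle) [IsFiniteMeasure μ] :
    Integrable (st K g) μ := by
  refine Integrable.of_bound (meas_st K g).aestronglyMeasurable
    (∑ k ∈ Finset.range K, |((g.getD k 0 : ℤ) : ℝ)|) (Filter.Eventually.of_forall fun x => ?_)
  rw [Real.norm_eq_abs]
  exact Finset.single_le_sum (f := fun k => |((g.getD k 0 : ℤ) : ℝ)|) (fun _ _ => abs_nonneg _)
    (Finset.mem_range.2 (ix_lt hK x))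

/-- the finite check -/
def chk (K j : ℕ) (g h : List ℤ) (V D : ℤ) : Bool :=
  (List.range (6 * K)).all fun i => decide
    ((if 6 * j ≤ i ∧ i ≤ 6 * K - 6 * j then D else 0) ≤
      V + (g.getD (i / 3 % K) 0 - g.getD (i / 6) 0) + (h.getD (i / 2 % K) 0 - h.getD (i / 6) 0))

variable {μ : Measure UnitAddCircle}

lemma int_comp {p : ℕ} (h : MeasurePreserving (fun x : UnitAddCircle => p • x) μ μ)
    {f : UnitAddCircle → ℝ} (hf : Integrable f μ) :
    ∫ x, f (p • x) ∂μ = ∫ x, f x ∂μ := by
  have hf' : AEStronglyMeasurable f (μ.map fun x : UnitAddCircle => p • x) := by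
    rw [h.map_eq]; exact hf.aestronglyMeasurable
  conv_rhs => rw [← h.map_eq]
  rw [integral_map h.measurable.aemeasurable hf']

lemma integrable_comp {p : ℕ} (h : MeasurePreserving (fun x : UnitAddCircle => p • x) μ μ)
    {f : UnitAddCircle → ℝ} (hf : Integrable f μ) : Integrable (fun x => f (p • x)) μ :=
  h.integrable_comp_of_integrable hf

/-- **The bound given by a certificate.** -/
theorem bound [IsProbabilityMeasure μ] {K j : ℕ} (hK : 0 < K) (hj : j ≤ K) {g h : List ℤ} {V D : ℤ} (hD : 0 < D)
    (hc : chk K j g h V D = true)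
    (h2 : MeasurePreserving (fun x : UnitAddCircle => 2 • x) μ μ)
    (h3 : MeasurePreserving (fun x : UnitAddCircle => 3 • x) μ μ) :
    μ.real {x | (j : ℝ) / K ≤ ‖x‖} ≤ (V : ℝ) / D := by
  have hDR : (0 : ℝ) < D := by exact_mod_cast hD
  have hKR : (0 : ℝ) < K := by exact_mod_cast hK
  set A : Set UnitAddCircle := {x | (j : ℝ) / K ≤ ‖x‖} with hA
  have hAm : MeasurableSet A := (isClosed_le continuous_const continuous_norm).measurableSet
  have ig := int_st hK g μ
  have ih := int_st hK h μ
  have key : ∀ x : UnitAddCircle, A.indicator (fun _ => (D : ℝ)) x ≤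
      (V : ℝ) + (st K g (2 • x) - st K g x) + (st K h (3 • x) - st K h x) := by
    intro x
    have hi : ix (6 * K) x < 6 * K := ix_lt (by omega) x
    have h0 := (List.all_eq_true.1 hc) (ix (6 * K) x) (List.mem_range.2 hi)
    rw [decide_eq_true_eq] at h0
    have e2 : ix K (2 • x) = ix (6 * K) x / 3 % K := by
      have := ix_nsmul (K := K) (n := 2) (m := 3) hK (by norm_num) (by norm_num) x
      simpa using this
    have e3 : ix K (3 • x) = ix (6 * K) x / 2 % K := by
      have := ix_nsmul (K := K) (n := 3) (m := 2) hK (by norm_num) (by norm_num) x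
      simpa using this
    have e1 : ix K x = ix (6 * K) x / 6 := ix_div x (by norm_num)
    rw [← e2, ← e3, ← e1] at h0
    have hind : A.indicator (fun _ => (D : ℝ)) x ≤
        (((if 6 * j ≤ ix (6 * K) x ∧ ix (6 * K) x ≤ 6 * K - 6 * j then D else 0 : ℤ)) : ℝ) := by
      by_cases hx : x ∈ A
      · rw [indicator_of_mem hx, if_pos]
        have hx' : (j : ℝ) / K ≤ ‖x‖ := hx
        rw [norm_eq, le_min_iff, div_le_iff₀ hKR] at hx'
        obtain ⟨a1, a2⟩ := hx'
        have a3 : (j : ℝ) ≤ (1 - rep x) * K := by rwa [div_le_iff₀ hKR] at a2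
        unfold ix
        constructor
        · apply Nat.le_floor
          push_cast
          linarith
        · apply Nat.floor_le_of_le
          rw [Nat.cast_sub (by omega)]
          push_cast
          linarith
      · rw [indicator_of_notMem hx]
        split_ifs
        · exact hDR.le
        · simp
    refine hind.trans ?_
    unfold st
    exact_mod_cast h0
  have hI : ∫ x, A.indicator (fun _ => (D : ℝ)) x ∂μ ≤
      ∫ x, ((V : ℝ) + (st K g (2 • x) - st K g x) + (st K h (3 • x) - st K h x)) ∂μ :=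
    integral_mono ((integrable_const (D : ℝ)).indicator hAm)
      (((integrable_const _).add ((integrable_comp h2 ig).sub ig)).add
        ((integrable_comp h3 ih).sub ih)) key
  rw [integral_indicator_const _ hAm, integral_add, integral_add, integral_sub, integral_sub,
    int_comp h2 ig, int_comp h3 ih] at hI
  · simp only [integral_const, probReal_univ, smul_eq_mul, one_mul, sub_self, add_zero] at hI
    rw [le_div_iff₀ hDR]
    exact hI
  · exact integrable_comp h3 ih
  · exact ih
  · exact integrable_comp h2 ig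
  · exact ig
  · exact integrable_const _
  · exact (integrable_comp h2 ig).sub ig
  · exact (integrable_const _).add ((integrable_comp h2 ig).sub ig)
  · exact (integrable_comp h3 ih).sub ih

end Pool.Agent.X170.Arc
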