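import Pool.Agent.X170.Arc.Data
import Pool.Agent.Y315.FC.Orb

/-!
# The greatest mass of symmetric arcs
-/

set_option autoImplicit false

open MeasureTheory Set
open scoped ENNReal

namespace Pool.Agent.X170.Arc

open Pool.Agent.Y315.FC

/-- the masses which invariant measures give to the arc of the points at distance at least `t`
from `0` -/
def Vals (t : ℝ) : Set ℝ := {v : ℝ | ∃ μ : Measure UnitAddCircle, IsProbabilityMeasure μ ∧
  MeasurePreserving (fun x : UnitAddCircle => 2 • x) μ μ ∧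
  MeasurePreserving (fun x : UnitAddCircle => 3 • x) μ μ ∧ v = μ.real {x | t ≤ ‖x‖}}

/-- the value is the greatest one, and it is attained by a finitely supported measure -/
def Att (t v : ℝ) : Prop := IsGreatest (Vals t) v ∧ ∃ μ : Measure UnitAddCircle,
  IsProbabilityMeasure μ ∧ MeasurePreserving (fun x : UnitAddCircle => 2 • x) μ μ ∧
  MeasurePreserving (fun x : UnitAddCircle => 3 • x) μ μ ∧
  (∃ S : Finset UnitAddCircle, μ (S : Set UnitAddCircle)ᶜ = 0) ∧ v = μ.real {x | t ≤ ‖x‖}

lemma orb_fin {N : ℕ} [NeZero N] (S : Finset (ZMod N)) :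
    ∃ F : Finset UnitAddCircle, orb S (F : Set UnitAddCircle)ᶜ = 0 := by
  classical
  refine ⟨S.image fun a => ZMod.toAddCircle a, ?_⟩
  unfold orb
  rw [Measure.smul_apply, Measure.finsetSum_apply, Finset.sum_eq_zero, smul_zero]
  intro a ha
  rw [Measure.dirac_apply' _ (Finset.measurableSet _).compl, indicator_of_notMem]
  intro h
  exact h (Finset.mem_coe.2 (Finset.mem_image_of_mem _ ha))

lemma norm_toAddCircle {N : ℕ} [NeZero N] (a : ZMod N) :
    ‖ZMod.toAddCircle a‖ = min ((a.val : ℝ) / N) (1 - (a.val : ℝ) / N) := by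
  have hN : (0 : ℝ) < N := by exact_mod_cast NeZero.pos N
  rw [ZMod.toAddCircle_apply, UnitAddCircle.norm_eq, abs_sub_round_eq_min, Int.fract_eq_self.2]
  refine ⟨by positivity, ?_⟩
  rw [div_lt_one hN]
  exact_mod_cast ZMod.val_lt a

lemma att {N k : ℕ} [NeZero N] {S S' : Finset (ZMod N)} (hSS : S' ⊆ S)
    (hS' : ∀ a ∈ S', k ≤ a.val ∧ a.val + k ≤ N) (hne : S.Nonempty) {t : ℝ}
    (ht : t ≤ (k : ℝ) / N) :
    (S'.card : ℝ) / S.card ≤ (orb S).real {x | t ≤ ‖x‖} := by
  have hN : (0 : ℝ) < N := by exact_mod_cast NeZero.pos N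
  have hpr := orb_prob hne
  have hAm : MeasurableSet {x : UnitAddCircle | t ≤ ‖x‖} :=
    (isClosed_le continuous_const continuous_norm).measurableSet
  have h1 : (S.card : ℝ≥0∞)⁻¹ * (S'.card : ℝ≥0∞) ≤ orb S {x | t ≤ ‖x‖} := by
    unfold orb
    rw [Measure.smul_apply, Measure.finsetSum_apply, smul_eq_mul]
    refine mul_le_mul_right ?_ _
    calc (S'.card : ℝ≥0∞) = ∑ a ∈ S', (1 : ℝ≥0∞) := by simp
      _ = ∑ a ∈ S', (Measure.dirac (ZMod.toAddCircle a) : Measure UnitAddCircle)
            {x | t ≤ ‖x‖} := by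
          refine Finset.sum_congr rfl fun a ha => ?_
          rw [Measure.dirac_apply' _ hAm, indicator_of_mem, Pi.one_apply]
          change t ≤ ‖ZMod.toAddCircle a‖
          obtain ⟨h1, h2⟩ := hS' a ha
          have h1' : (k : ℝ) ≤ a.val := by exact_mod_cast h1
          have h2' : (a.val : ℝ) + k ≤ N := by exact_mod_cast h2
          rw [norm_toAddCircle, le_min_iff]
          constructor
          · exact ht.trans (by gcongr)
          · have e : 1 - (a.val : ℝ) / N = (N - a.val) / N := by field_simp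
            rw [e]
            refine ht.trans ?_
            gcongr
            linarith
      _ ≤ _ := Finset.sum_le_sum_of_subset hSS
  have h2 : ((S.card : ℝ≥0∞)⁻¹ * (S'.card : ℝ≥0∞)).toReal ≤ (orb S).real {x | t ≤ ‖x‖} :=
    ENNReal.toReal_mono (measure_ne_top _ _) h1
  rw [ENNReal.toReal_mul, ENNReal.toReal_inv, ENNReal.toReal_natCast, ENNReal.toReal_natCast] at h2
  rw [div_eq_mul_inv, mul_comm]
  exact h2

theorem step {K j : ℕ} (hK : 0 < K) (hj : j ≤ K) {g h : List ℤ} {V D : ℤ} (hD : 0 < D)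
    (hc : chk K j g h V D = true) {N k : ℕ} [NeZero N] {S S' : Finset (ZMod N)} (hSS : S' ⊆ S)
    (hS' : ∀ a ∈ S', k ≤ a.val ∧ a.val + k ≤ N) (hne : S.Nonempty)
    (hi2 : S.image (fun a => ((2 : ℕ) : ZMod N) * a) = S)
    (hi3 : S.image (fun a => ((3 : ℕ) : ZMod N) * a) = S) {t v : ℝ} (h1 : (j : ℝ) / K ≤ t)
    (h2 : t ≤ (k : ℝ) / N) (hv : v = (S'.card : ℝ) / S.card) (hv' : v = (V : ℝ) / D) :
    Att t v := by
  have hub : ∀ μ : Measure UnitAddCircle, IsProbabilityMeasure μ →
      MeasurePreserving (fun x : UnitAddCircle => 2 • x) μ μ →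
      MeasurePreserving (fun x : UnitAddCircle => 3 • x) μ μ → μ.real {x | t ≤ ‖x‖} ≤ v := by
    intro μ hμ a2 a3
    rw [hv']
    refine le_trans (measureReal_mono ?_) (bound hK hj hD hc a2 a3)
    intro x hx
    exact h1.trans hx
  have hpr := orb_prob hne
  have m2 := orb_mp 2 hi2
  have m3 := orb_mp 3 hi3
  have e : v = (orb S).real {x | t ≤ ‖x‖} := by
    refine le_antisymm ?_ (hub _ hpr m2 m3)
    rw [hv]
    exact att hSS hS' hne h2
  refine ⟨⟨⟨orb S, hpr, m2, m3, e⟩, ?_⟩, orb S, hpr, m2, m3, orb_fin S, e⟩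
  rintro w ⟨μ, hμ, a2, a3, rfl⟩
  exact hub μ hμ a2 a3

/-- the nonzero residues -/
abbrev U (N : ℕ) [NeZero N] : Finset (ZMod N) := Finset.univ.erase 0

theorem p0 {t : ℝ} (h2 : t ≤ 1 / 5) : Att t 1 := by
  have hne : (U 5).Nonempty := by decide
  have hpr := orb_prob hne
  have m2 := orb_mp (S := U 5) 2 (by decide)
  have m3 := orb_mp (S := U 5) 3 (by decide)
  have h3 := att (S := U 5) (S' := U 5) (k := 1) (subset_refl _) (by decide) hne (t := t)
    (by simpa using h2)
  have h4 : ((U 5).card : ℝ) / (U 5).card = 1 := by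
    have : (U 5).card = 4 := by decide
    rw [this]; norm_num
  rw [h4] at h3
  have e := le_antisymm h3 (measureReal_le_one (μ := orb (U 5)) (s := {x | t ≤ ‖x‖}))
  refine ⟨⟨⟨orb (U 5), hpr, m2, m3, e⟩, ?_⟩, orb (U 5), hpr, m2, m3, orb_fin _, e⟩
  rintro w ⟨μ, hμ, -, -, rfl⟩
  exact measureReal_le_one

theorem p1 {t : ℝ} (h1 : 5 / 24 ≤ t) (h2 : t ≤ 2 / 7) : Att t (2 / 3) := by
  refine step (by norm_num) (by norm_num) (by norm_num) c1 (N := 7) (k := 2) (S := U 7)
    (S' := {2, 3, 4, 5}) (by decide) (by decide) (by decide) (by decide) (by decide)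
    (le_trans (by norm_num) h1) (h2.trans (by norm_num)) ?_ (by norm_num)
  have : (U 7).card = 6 := by decide
  have h' : ({2, 3, 4, 5} : Finset (ZMod 7)).card = 4 := by decide
  rw [this, h']; norm_num

theorem p2 {t : ℝ} (h1 : 31 / 108 ≤ t) (h2 : t ≤ 2 / 5) : Att t (1 / 2) := by
  refine step (by norm_num) (by norm_num) (by norm_num) c2 (N := 5) (k := 2) (S := U 5)
    (S' := {2, 3}) (by decide) (by decide) (by decide) (by decide) (by decide)
    (le_trans (by norm_num) h1) (h2.trans (by norm_num)) ?_ (by norm_num)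
  have : (U 5).card = 4 := by decide
  have h' : ({2, 3} : Finset (ZMod 5)).card = 2 := by decide
  rw [this, h']; norm_num

theorem p3 {t : ℝ} (h1 : 29 / 72 ≤ t) (h2 : t ≤ 3 / 7) : Att t (1 / 3) := by
  refine step (by norm_num) (by norm_num) (by norm_num) c3 (N := 7) (k := 3) (S := U 7)
    (S' := {3, 4}) (by decide) (by decide) (by decide) (by decide) (by decide)
    (le_trans (by norm_num) h1) (h2.trans (by norm_num)) ?_ (by norm_num)
  have : (U 7).card = 6 := by decide
  have h' : ({3, 4} : Finset (ZMod 7)).card = 2 := by decide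
  rw [this, h']; norm_num

theorem p4 {t : ℝ} (h1 : 31 / 72 ≤ t) (h2 : t ≤ 5 / 11) : Att t (1 / 5) := by
  refine step (by norm_num) (by norm_num) (by norm_num) c4 (N := 11) (k := 5) (S := U 11)
    (S' := {5, 6}) (by decide) (by decide) (by decide) (by decide) (by decide)
    (le_trans (by norm_num) h1) (h2.trans (by norm_num)) ?_ (by norm_num)
  have : (U 11).card = 10 := by decide
  have h' : ({5, 6} : Finset (ZMod 11)).card = 2 := by decide
  rw [this, h']; norm_num

theorem p5 {t : ℝ} (h1 : 11 / 24 ≤ t) (h2 : t ≤ 6 / 13) : Att t (1 / 6) := by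
  refine step (by norm_num) (by norm_num) (by norm_num) c5 (N := 13) (k := 6) (S := U 13)
    (S' := {6, 7}) (by decide) (by decide) (by decide) (by decide) (by decide)
    (le_trans (by norm_num) h1) (h2.trans (by norm_num)) ?_ (by norm_num)
  have : (U 13).card = 12 := by decide
  have h' : ({6, 7} : Finset (ZMod 13)).card = 2 := by decide
  rw [this, h']; norm_num

theorem p6 {t : ℝ} (h1 : 25 / 54 ≤ t) (h2 : t ≤ 8 / 17) : Att t (1 / 8) := by
  refine step (by norm_num) (by norm_num) (by norm_num) c6 (N := 17) (k := 8) (S := U 17)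
    (S' := {8, 9}) (by decide) (by decide) (by decide) (by decide) (by decide)
    (le_trans (by norm_num) h1) (h2.trans (by norm_num)) ?_ (by norm_num)
  have : (U 17).card = 16 := by decide
  have h' : ({8, 9} : Finset (ZMod 17)).card = 2 := by decide
  rw [this, h']; norm_num

theorem p7 {t : ℝ} (h1 : 17 / 36 ≤ t) (h2 : t ≤ 9 / 19) : Att t (1 / 9) := by
  refine step (by norm_num) (by norm_num) (by norm_num) c7 (N := 19) (k := 9) (S := U 19)
    (S' := {9, 10}) (by decide) (by decide) (by decide) (by decide) (by decide)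
    (le_trans (by norm_num) h1) (h2.trans (by norm_num)) ?_ (by norm_num)
  have : (U 19).card = 18 := by decide
  have h' : ({9, 10} : Finset (ZMod 19)).card = 2 := by decide
  rw [this, h']; norm_num

end Pool.Agent.X170.Arc
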